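import Pool.Agent.W799.FBMain

/-!
The free boundary of `Δu = x₁ χ_D`, `u = 0` off `D`, in the plane can be `C¹` near the origin
without being `C^{1,α}` for any `α > 0`.
-/

set_option autoImplicit false
open Set Filter Topology MeasureTheory Metric

namespace Pool.Agent.Results.MP_056161_an.C1NotHolder

/-- The Euclidean plane. -/
abbrev Plane : Type := EuclideanSpace ℝ (Fin 2)

/-- In a suitable rotated (orthonormal) coordinate system `S` is, in a disc around `0`, the graph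
of the function `k` of one variable. -/
def IsGraphNearZero (S : Set Plane) (ρ : ℝ) (k : ℝ → ℝ) : Prop :=
  ∃ R : Plane ≃ₗᵢ[ℝ] Plane,
    S ∩ ball (0 : Plane) ρ = {x : Plane | (R x) 1 = k ((R x) 0)} ∩ ball (0 : Plane) ρ

/-- `S` is a `C¹` curve near `0`. -/
def IsC1NearZero (S : Set Plane) : Prop :=
  ∃ (ρ : ℝ) (k : ℝ → ℝ), 0 < ρ ∧ ContDiffOn ℝ 1 k (Ioo (-ρ) ρ) ∧ IsGraphNearZero S ρ k

/-- `S` is a `C^{1,α}` curve near `0`. -/
def IsC1HolderNearZero (α : ℝ) (S : Set Plane) : Prop :=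
  ∃ (ρ : ℝ) (k : ℝ → ℝ), 0 < ρ ∧ ContDiffOn ℝ 1 k (Ioo (-ρ) ρ) ∧
    (∃ C : ℝ, ∀ s ∈ Ioo (-ρ) ρ, ∀ t ∈ Ioo (-ρ) ρ, |deriv k s - deriv k t| ≤ C * |s - t| ^ α) ∧
    IsGraphNearZero S ρ k

theorem c1_frontier : IsC1NearZero (frontier W799.FB.D) := by
  refine ⟨2, W799.FB.h, by norm_num, W799.FB.contDiffOn_h.mono ?_,
    LinearIsometryEquiv.piLpCongrLeft 2 ℝ ℝ (Equiv.swap (0 : Fin 2) 1), ?_⟩
  · exact Ioo_subset_Ioo (by norm_num) (by norm_num)
  · rw [W799.FB.frontier_D]
    have h0 : ∀ x : Plane, (LinearIsometryEquiv.piLpCongrLeft 2 ℝ ℝ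
        (Equiv.swap (0 : Fin 2) 1) x) 0 = x 1 := by
      intro x
      simp [LinearIsometryEquiv.piLpCongrLeft_apply, Equiv.piCongrLeft'_apply]
    have h1 : ∀ x : Plane, (LinearIsometryEquiv.piLpCongrLeft 2 ℝ ℝ
        (Equiv.swap (0 : Fin 2) 1) x) 1 = x 0 := by
      intro x
      simp [LinearIsometryEquiv.piLpCongrLeft_apply, Equiv.piCongrLeft'_apply]
    simp only [h0, h1]

/-- A `C^{1,α}` graph through `0` deviates from its tangent by at most `C |t|^{1+α}`. -/
lemma taylor {α ρ C : ℝ} {k : ℝ → ℝ} (hα : 0 < α) (hρ : 0 < ρ)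
    (hk : ContDiffOn ℝ 1 k (Ioo (-ρ) ρ))
    (hC : ∀ s ∈ Ioo (-ρ) ρ, ∀ t ∈ Ioo (-ρ) ρ, |deriv k s - deriv k t| ≤ C * |s - t| ^ α)
    (h0 : k 0 = 0) {t : ℝ} (ht : |t| < ρ) :
    |k t - deriv k 0 * t| ≤ max C 0 * |t| ^ (1 + α) := by
  have hsub : Icc (-|t|) |t| ⊆ Ioo (-ρ) ρ := fun s hs => ⟨by linarith [hs.1], by linarith [hs.2]⟩
  have hd : ∀ s ∈ Icc (-|t|) |t|, HasDerivAt (fun s => k s - deriv k 0 * s)
      (deriv k s - deriv k 0) s := by
    intro s hs
    have h1 : DifferentiableAt ℝ k s :=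
      (hk.differentiableOn (by norm_num)).differentiableAt (isOpen_Ioo.mem_nhds (hsub hs))
    have h2 := h1.hasDerivAt.sub ((hasDerivAt_id s).const_mul (deriv k 0))
    rw [mul_one] at h2
    exact h2
  have h3 := (convex_Icc (-|t|) |t|).norm_image_sub_le_of_norm_hasDerivWithin_le
    (f := fun s => k s - deriv k 0 * s) (f' := fun s => deriv k s - deriv k 0)
    (C := max C 0 * |t| ^ α) (x := 0) (y := t)
    (fun s hs => (hd s hs).hasDerivWithinAt)
    (fun s hs => by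
      have h4 := hC s (hsub hs) 0 ⟨by linarith, hρ⟩
      rw [sub_zero] at h4
      rw [Real.norm_eq_abs]
      refine h4.trans ?_
      have h5 : |s| ≤ |t| := abs_le.2 hs
      have h6 : |s| ^ α ≤ |t| ^ α := Real.rpow_le_rpow (abs_nonneg _) h5 hα.le
      calc C * |s| ^ α ≤ max C 0 * |s| ^ α := by
            gcongr; exact le_max_left _ _
        _ ≤ max C 0 * |t| ^ α := by gcongr)
    ⟨by linarith [abs_nonneg t], abs_nonneg t⟩ ⟨neg_abs_le t, le_abs_self t⟩
  simp only [h0, mul_zero, sub_zero, Real.norm_eq_abs] at h3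
  refine h3.trans (le_of_eq ?_)
  rcases eq_or_ne t 0 with h7 | h7
  · subst h7
    have h8 : (0 : ℝ) ^ (1 + α) = 0 := Real.zero_rpow (by linarith)
    rw [abs_zero, h8]; simp
  · rw [Real.rpow_add (abs_pos.2 h7), Real.rpow_one]; ring

theorem not_holder (α : ℝ) (hα : 0 < α) : ¬ IsC1HolderNearZero α (frontier W799.FB.D) := by
  rintro ⟨ρ, k, hρ, hk, ⟨C, hC⟩, R, hR⟩
  rw [W799.FB.frontier_D] at hR
  -- the graph passes through the origin
  have hk0 : k 0 = 0 := by
    have h1 : (0 : Plane) ∈ {x : Plane | x 0 = W799.FB.h (x 1)} ∩ ball (0 : Plane) ρ := by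
      refine ⟨?_, mem_ball_self hρ⟩
      show (0 : Plane) 0 = W799.FB.h ((0 : Plane) 1)
      simp [W799.FB.h_zero]
    rw [hR] at h1
    have h2 : (R (0 : Plane)) 1 = k ((R (0 : Plane)) 0) := h1.1
    rw [map_zero] at h2
    simpa using h2.symm
  set m : ℝ := deriv k 0 with hm
  set a : ℝ := (R (EuclideanSpace.single 0 (1 : ℝ))) 1 - m * (R (EuclideanSpace.single 0 (1 : ℝ))) 0
    with ha
  set b : ℝ := (R (EuclideanSpace.single 1 (1 : ℝ))) 1 - m * (R (EuclideanSpace.single 1 (1 : ℝ))) 0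
    with hb
  have hlin : ∀ x : Plane, (R x) 1 - m * (R x) 0 = a * x 0 + b * x 1 := by
    intro x
    have h1 : x = x 0 • EuclideanSpace.single 0 (1 : ℝ) + x 1 • EuclideanSpace.single 1 (1 : ℝ) := by
      ext i
      fin_cases i <;> simp
    have h2 : R x = x 0 • R (EuclideanSpace.single 0 (1 : ℝ)) +
        x 1 • R (EuclideanSpace.single 1 (1 : ℝ)) := by
      conv_lhs => rw [h1]
      rw [map_add, map_smul, map_smul]
    rw [h2, ha, hb]
    simp only [PiLp.add_apply, PiLp.smul_apply, smul_eq_mul]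
    ring
  -- the main estimate on the free boundary
  set C' : ℝ := max C 0 * 2 ^ (1 + α) with hC'
  have hC'0 : 0 ≤ C' := mul_nonneg (le_max_right _ _) (by positivity)
  have hest : ∀ y ∈ Ioo (0 : ℝ) (min 1 (ρ / 2)),
      |a * W799.FB.h y + b * y| ≤ C' * y ^ (1 + α) := by
    intro y hy
    have hy0 : 0 < y := hy.1
    have hy1 : y < ρ / 2 := hy.2.trans_le (min_le_right _ _)
    have hhy : W799.FB.h y ≤ y := by
      have h1 := W799.FB.lipschitz_h.dist_le_mul y 0
      rw [W799.FB.h_zero, Real.dist_eq, Real.dist_eq, sub_zero, sub_zero, abs_of_pos hy0] at h1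
      have := le_abs_self (W799.FB.h y)
      push_cast at h1
      linarith
    have hh0 := W799.FB.h_nonneg y
    let x : Plane := W799.FB.h y • EuclideanSpace.single 0 (1 : ℝ) +
      y • EuclideanSpace.single 1 (1 : ℝ)
    have hx0 : x 0 = W799.FB.h y := by simp [x]
    have hx1 : x 1 = y := by simp [x]
    have hxn : ‖x‖ ≤ 2 * y := by
      refine (norm_add_le _ _).trans ?_
      rw [norm_smul, norm_smul, PiLp.norm_single, PiLp.norm_single, norm_one,
        Real.norm_of_nonneg hh0, Real.norm_of_nonneg hy0.le]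
      linarith
    have hxb : x ∈ ball (0 : Plane) ρ := by
      rw [mem_ball_zero_iff]; linarith
    have h3 : x ∈ {x : Plane | x 0 = W799.FB.h (x 1)} ∩ ball (0 : Plane) ρ := by
      refine ⟨?_, hxb⟩
      show x 0 = W799.FB.h (x 1)
      rw [hx0, hx1]
    rw [hR] at h3
    have h4 : (R x) 1 = k ((R x) 0) := h3.1
    have h5 : |(R x) 0| ≤ ‖x‖ := by
      rw [← R.norm_map x, ← Real.norm_eq_abs]
      exact PiLp.norm_apply_le (R x) 0
    have h6 : |(R x) 0| < ρ := h5.trans_lt (by linarith)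
    have h7 := taylor hα hρ hk hC hk0 h6
    rw [← h4, ← hm, hlin x, hx0, hx1] at h7
    refine h7.trans ?_
    have h8 : |(R x) 0| ^ (1 + α) ≤ (2 * y) ^ (1 + α) :=
      Real.rpow_le_rpow (abs_nonneg _) (h5.trans hxn) (by linarith)
    rw [Real.mul_rpow (by norm_num) hy0.le] at h8
    calc max C 0 * |(R x) 0| ^ (1 + α) ≤ max C 0 * (2 ^ (1 + α) * y ^ (1 + α)) := by gcongr
      _ = C' * y ^ (1 + α) := by rw [hC']; ring
  have hev : ∀ᶠ y in 𝓝[>] (0 : ℝ), y ∈ Ioo (0 : ℝ) (min 1 (ρ / 2)) :=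
    Ioo_mem_nhdsGT (lt_min one_pos (by linarith))
  -- the tangent direction is the second coordinate axis
  have hb0 : b = 0 := by
    have hle : ∀ᶠ y in 𝓝[>] (0 : ℝ),
        |b| ≤ |a| * (Real.pi / 2 * (2 - Real.log y)⁻¹) + C' * y ^ α := by
      filter_upwards [hev] with y hy
      have hy0 : 0 < y := hy.1
      have hy1 : |y| < 1 := by rw [abs_of_pos hy0]; exact hy.2.trans_le (min_le_left _ _)
      have h1 := hest y hy
      have h2 := W799.FB.h_le_log hy0.ne' hy1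
      rw [abs_of_pos hy0] at h2
      have h3 : |b| * y ≤ |a| * W799.FB.h y + C' * y ^ (1 + α) := by
        have h4 : b * y = (a * W799.FB.h y + b * y) - a * W799.FB.h y := by ring
        calc |b| * y = |b * y| := by rw [abs_mul, abs_of_pos hy0]
          _ = |(a * W799.FB.h y + b * y) - a * W799.FB.h y| := by rw [← h4]
          _ ≤ |a * W799.FB.h y + b * y| + |a * W799.FB.h y| := abs_sub _ _
          _ ≤ C' * y ^ (1 + α) + |a| * W799.FB.h y := by
              rw [abs_mul a, abs_of_nonneg (W799.FB.h_nonneg y)]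
              gcongr
          _ = _ := by ring
      have h5 : |b| * y ≤ (|a| * (Real.pi / 2 * (2 - Real.log y)⁻¹) + C' * y ^ α) * y := by
        refine h3.trans ?_
        rw [Real.rpow_add hy0, Real.rpow_one]
        have h6 : |a| * W799.FB.h y ≤ |a| * (y * (Real.pi / 2 * (2 - Real.log y)⁻¹)) := by gcongr
        linarith
      exact le_of_mul_le_mul_right h5 hy0
    have hlim : Tendsto (fun y : ℝ => |a| * (Real.pi / 2 * (2 - Real.log y)⁻¹) + C' * y ^ α)
        (𝓝[>] 0) (𝓝 0) := by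
      have h1 : Tendsto (fun y : ℝ => Real.pi / 2 * (2 - Real.log y)⁻¹) (𝓝[>] 0) (𝓝 0) :=
        W799.FB.tendsto_w.mono_left (nhdsWithin_mono _ fun y hy => ne_of_gt hy)
      have h2 : Tendsto (fun y : ℝ => y ^ α) (𝓝[>] 0) (𝓝 0) := by
        have h3 : Tendsto (fun y : ℝ => y ^ α) (𝓝 0) (𝓝 ((0 : ℝ) ^ α)) :=
          (Real.continuousAt_rpow_const 0 α (Or.inr hα.le)).tendsto
        rw [Real.zero_rpow hα.ne'] at h3
        exact h3.mono_left nhdsWithin_le_nhds
      simpa using (h1.const_mul |a|).add (h2.const_mul C')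
    exact abs_nonpos_iff.1 (ge_of_tendsto hlim hle)
  have ha0 : a ≠ 0 := by
    intro ha0
    have h1 := hlin (R.symm (EuclideanSpace.single 1 (1 : ℝ)))
    rw [ha0, hb0, LinearIsometryEquiv.apply_symm_apply] at h1
    simp at h1
  refine W799.FB.h_not_holder hα (C := C' / |a|) (lt_min one_pos (half_pos hρ)) fun y hy => ?_
  have h1 := hest y hy
  rw [hb0, zero_mul, add_zero, abs_mul, abs_of_nonneg (W799.FB.h_nonneg y)] at h1
  rw [div_mul_eq_mul_div, le_div_iff₀ (abs_pos.2 ha0), mul_comm]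
  exact h1

/-- There are a planar Lipschitz domain `D` with `0 ∈ ∂D` and `u ∈ C^{1,1}(B₂)` with
`Δu = x₁ χ_D` in `B₂` and `u = 0` on `B₂ ∖ D̄` such that `∂D` is of class `C¹` near `0` but not of
class `C^{1,α}` near `0` for any `α > 0`. -/
theorem result :
    ∃ (D : Set Plane) (u : Plane → ℝ),
      (∃ (K : NNReal) (h : ℝ → ℝ), LipschitzWith K h ∧ D = {x : Plane | h (x 1) < x 0}) ∧
      (0 : Plane) ∈ frontier D ∧
      DifferentiableOn ℝ u (ball (0 : Plane) 2) ∧
      (∃ K : NNReal, LipschitzOnWith K (fderiv ℝ u) (ball (0 : Plane) 2)) ∧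
      (∀ φ : Plane → ℝ, ContDiff ℝ 2 φ → HasCompactSupport φ →
        tsupport φ ⊆ ball (0 : Plane) 2 →
        ∫ x, u x * (∑ i : Fin 2,
            fderiv ℝ (fun y => fderiv ℝ φ y (EuclideanSpace.single i (1 : ℝ))) x
              (EuclideanSpace.single i (1 : ℝ)))
          = ∫ x, x 0 * D.indicator (fun _ => (1 : ℝ)) x * φ x) ∧
      (∀ x ∈ ball (0 : Plane) 2, x ∉ closure D → u x = 0) ∧
      IsC1NearZero (frontier D) ∧
      ∀ α : ℝ, 0 < α → ¬ IsC1HolderNearZero α (frontier D) := by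
  refine ⟨W799.FB.D, W799.FB.uE, ⟨1, W799.FB.h, W799.FB.lipschitz_h, rfl⟩, ?_, ?_, ?_,
    W799.FB.weak_eq, ?_, c1_frontier, not_holder⟩
  · rw [W799.FB.frontier_D]
    show (0 : Plane) 0 = W799.FB.h ((0 : Plane) 1)
    simp [W799.FB.h_zero]
  · exact fun x hx => (W799.FB.hasFDerivAt_uE hx).differentiableAt.differentiableWithinAt
  · exact ⟨4, W799.FB.fderiv_uE_lip⟩
  · intro x _ hx
    exact W799.FB.uE_zero fun h1 => hx (subset_closure h1)

end Pool.Agent.Results.MP_056161_an.C1NotHolder
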